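import Pool.Agent.U481.GL.Stm

set_option autoImplicit false

/-!
Project GL (helper481), package SUB: measurability, subadditivity and countable subadditivity of the
area function.
-/

namespace Pool.Agent.U492.GL

open MeasureTheory Filter Topology Set Pool.Agent.U481.GL
open scoped ENNReal NNReal Real

/-- integral operator with kernel `k` -/
noncomputable def GG (k : ℝ → ℝ → ℝ) (f : ℝ → ℂ) (q : ℝ × ℝ) : ℂ := ∫ t, (k (q.1 - t) q.2 : ℂ) * f t

theorem Gz_eq (f : ℝ → ℂ) : Gz f = GG kz f := rfl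

theorem Gy_eq (f : ℝ → ℂ) : Gy f = GG ky f := rfl

/-- admissible kernels -/
structure Adm (k : ℝ → ℝ → ℝ) : Prop where
  meas : Measurable fun p : ℝ × ℝ => k p.1 p.2
  bd : ∀ x y : ℝ, 0 < y → |k x y| ≤ 1 / (π * y ^ 2)

theorem adm_kz : Adm kz := by
  refine ⟨by unfold kz; fun_prop, fun x y hy => ?_⟩
  have hpi := Real.pi_pos
  have h1 : 0 < x ^ 2 + y ^ 2 := by positivity
  unfold kz
  rw [abs_div, abs_of_pos (by positivity : 0 < π * (x ^ 2 + y ^ 2) ^ 2),
    div_le_div_iff₀ (by positivity) (by positivity)]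
  have h2 : |-(2 * x * y)| ≤ x ^ 2 + y ^ 2 := by
    rw [abs_le]
    constructor <;> nlinarith [sq_nonneg (x - y), sq_nonneg (x + y)]
  have h3 : y ^ 2 ≤ x ^ 2 + y ^ 2 := by nlinarith [sq_nonneg x]
  have h4 : |-(2 * x * y)| * y ^ 2 ≤ (x ^ 2 + y ^ 2) * (x ^ 2 + y ^ 2) :=
    mul_le_mul h2 h3 (by positivity) (by positivity)
  calc |-(2 * x * y)| * (π * y ^ 2) = π * (|-(2 * x * y)| * y ^ 2) := by ring
    _ ≤ π * ((x ^ 2 + y ^ 2) * (x ^ 2 + y ^ 2)) := mul_le_mul_of_nonneg_left h4 hpi.le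
    _ = 1 * (π * (x ^ 2 + y ^ 2) ^ 2) := by ring

theorem adm_ky : Adm ky := by
  refine ⟨by unfold ky; fun_prop, fun x y hy => ?_⟩
  have hpi := Real.pi_pos
  have h1 : 0 < x ^ 2 + y ^ 2 := by positivity
  unfold ky
  rw [abs_div, abs_of_pos (by positivity : 0 < π * (x ^ 2 + y ^ 2) ^ 2),
    div_le_div_iff₀ (by positivity) (by positivity)]
  have h2 : |x ^ 2 - y ^ 2| ≤ x ^ 2 + y ^ 2 := by
    rw [abs_le]
    constructor <;> nlinarith [sq_nonneg x, sq_nonneg y]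
  have h3 : y ^ 2 ≤ x ^ 2 + y ^ 2 := by nlinarith [sq_nonneg x]
  have h4 : |x ^ 2 - y ^ 2| * y ^ 2 ≤ (x ^ 2 + y ^ 2) * (x ^ 2 + y ^ 2) :=
    mul_le_mul h2 h3 (by positivity) (by positivity)
  calc |x ^ 2 - y ^ 2| * (π * y ^ 2) = π * (|x ^ 2 - y ^ 2| * y ^ 2) := by ring
    _ ≤ π * ((x ^ 2 + y ^ 2) * (x ^ 2 + y ^ 2)) := mul_le_mul_of_nonneg_left h4 hpi.le
    _ = 1 * (π * (x ^ 2 + y ^ 2) ^ 2) := by ring

variable {k : ℝ → ℝ → ℝ}

theorem GG_meas (hk : Adm k) {f : ℝ → ℂ} (hf : Integrable f) : Measurable (GG k f) := by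
  set g : ℝ → ℂ := hf.1.mk f with hg
  have hgm : StronglyMeasurable g := hf.1.stronglyMeasurable_mk
  have e : GG k f = fun q => ∫ t, (k (q.1 - t) q.2 : ℂ) * g t := by
    funext q
    unfold GG
    apply integral_congr_ae
    filter_upwards [hf.1.ae_eq_mk] with t ht
    rw [ht]
  rw [e]
  have h1 : StronglyMeasurable (Function.uncurry fun (q : ℝ × ℝ) (t : ℝ) => (k (q.1 - t) q.2 : ℂ) * g t) := by
    apply Measurable.stronglyMeasurable
    have h2 : Measurable fun p : (ℝ × ℝ) × ℝ => (p.1.1 - p.2, p.1.2) := by fun_prop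
    have h3 : Measurable fun p : (ℝ × ℝ) × ℝ => k (p.1.1 - p.2) p.1.2 := hk.meas.comp h2
    exact (Complex.measurable_ofReal.comp h3).mul (hgm.measurable.comp measurable_snd)
  exact h1.integral_prod_right.measurable

theorem GG_int (hk : Adm k) {f : ℝ → ℂ} (hf : Integrable f) {q : ℝ × ℝ} (hq : 0 < q.2) :
    Integrable fun t => (k (q.1 - t) q.2 : ℂ) * f t := by
  have h1 : Measurable fun t : ℝ => ((k (q.1 - t) q.2 : ℝ) : ℂ) := by
    have h2 : Measurable fun t : ℝ => (q.1 - t, q.2) := by fun_prop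
    exact Complex.measurable_ofReal.comp (hk.meas.comp h2)
  refine hf.bdd_mul h1.aestronglyMeasurable (c := 1 / (π * q.2 ^ 2)) (Eventually.of_forall fun t => ?_)
  rw [Complex.norm_real, Real.norm_eq_abs]
  exact hk.bd _ _ hq

theorem GG_norm (hk : Adm k) {f : ℝ → ℂ} (hf : Integrable f) {q : ℝ × ℝ} (hq : 0 < q.2) :
    ∫ t, ‖(k (q.1 - t) q.2 : ℂ) * f t‖ ≤ 1 / (π * q.2 ^ 2) * ∫ t, ‖f t‖ := by
  rw [← integral_const_mul]
  refine integral_mono (GG_int hk hf hq).norm (hf.norm.const_mul _) fun t => ?_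
  simp only [norm_mul]
  refine mul_le_mul_of_nonneg_right ?_ (norm_nonneg _)
  rw [Complex.norm_real, Real.norm_eq_abs]
  exact hk.bd _ _ hq

theorem GG_add (hk : Adm k) {f g : ℝ → ℂ} (hf : Integrable f) (hg : Integrable g) {q : ℝ × ℝ}
    (hq : 0 < q.2) : GG k (fun y => f y + g y) q = GG k f q + GG k g q := by
  unfold GG
  rw [← integral_add (GG_int hk hf hq) (GG_int hk hg hq)]
  congr 1
  funext t
  ring

theorem GG_sum (hk : Adm k) {b : ℕ → ℝ → ℂ} (hb : ∀ j, Integrable (b j)) {q : ℝ × ℝ} (hq : 0 < q.2)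
    (n : ℕ) : GG k (fun y => ∑ j ∈ Finset.range n, b j y) q = ∑ j ∈ Finset.range n, GG k (b j) q := by
  unfold GG
  rw [← integral_finsetSum _ fun j _ => GG_int hk (hb j) hq]
  congr 1
  funext t
  rw [Finset.mul_sum]

theorem GG_hasSum (hk : Adm k) {b : ℕ → ℝ → ℂ} (hb : ∀ j, Integrable (b j))
    (hs : (∑' j, ∫⁻ y, ‖b j y‖ₑ) < ⊤) {q : ℝ × ℝ} (hq : 0 < q.2) :
    HasSum (fun j => GG k (b j) q) (GG k (fun y => ∑' j, b j y) q) := by
  have h1 : Summable fun j => ∫ t, ‖b j t‖ := by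
    have h2 := ENNReal.summable_toReal hs.ne
    refine h2.congr fun j => ?_
    rw [integral_norm_eq_lintegral_enorm (hb j).1]
  have h3 : Summable fun j => ∫ t, ‖(k (q.1 - t) q.2 : ℂ) * b j t‖ := by
    refine Summable.of_nonneg_of_le (fun j => integral_nonneg fun t => norm_nonneg _)
      (fun j => GG_norm hk (hb j) hq) (h1.mul_left _)
  have h4 := hasSum_integral_of_summable_integral_norm (fun j => GG_int hk (hb j) hq) h3
  simp only [tsum_mul_left] at h4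
  exact h4

theorem G2_meas {f : ℝ → ℂ} (hf : Integrable f) : Measurable (G2 f) := by
  unfold G2
  rw [Gz_eq, Gy_eq]
  exact ((GG_meas adm_kz hf).enorm.pow_const 2).add ((GG_meas adm_ky hf).enorm.pow_const 2)

theorem cone_pos {x : ℝ} {q : ℝ × ℝ} (hq : q ∈ cone 1 x) : 0 < q.2 := by
  have h : |q.1 - x| < 1 * q.2 := hq
  have := abs_nonneg (q.1 - x)
  linarith

theorem cone_meas (x : ℝ) : MeasurableSet (cone 1 x) := by
  unfold cone
  exact measurableSet_lt (by fun_prop) (by fun_prop)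

theorem SF_meas {f : ℝ → ℂ} (hf : Integrable f) : Measurable (SF f) := by
  unfold SF SG
  have h1 : ∀ x, ∫⁻ q in cone 1 x, G2 f q =
      ∫⁻ q, ({p : ℝ × (ℝ × ℝ) | |p.2.1 - p.1| < 1 * p.2.2}).indicator (fun p => G2 f p.2) (x, q) := by
    intro x
    rw [← lintegral_indicator (cone_meas x)]
    rfl
  simp only [h1]
  apply Measurable.pow_const
  have h2 : MeasurableSet {p : ℝ × (ℝ × ℝ) | |p.2.1 - p.1| < 1 * p.2.2} :=
    measurableSet_lt (by fun_prop) (by fun_prop)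
  exact Measurable.lintegral_prod_right' (((G2_meas hf).comp measurable_snd).indicator h2)

/-- Minkowski for two components -/
theorem mink2 (a b a' b' : ℝ≥0∞) : ((a + a') ^ 2 + (b + b') ^ 2) ^ (1 / 2 : ℝ) ≤
    (a ^ 2 + b ^ 2) ^ (1 / 2 : ℝ) + (a' ^ 2 + b' ^ 2) ^ (1 / 2 : ℝ) := by
  have h := ENNReal.Lp_add_le (Finset.univ : Finset (Fin 2)) ![a, b] ![a', b'] (p := 2) (by norm_num)
  simpa [Fin.sum_univ_two] using h

theorem SF_add {f g : ℝ → ℂ} (hf : Integrable f) (hg : Integrable g) (x : ℝ) :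
    SF (fun y => f y + g y) x ≤ SF f x + SF g x := by
  have hpt : ∀ q ∈ cone 1 x, G2 (fun y => f y + g y) q ≤
      ((G2 f q) ^ (1 / 2 : ℝ) + (G2 g q) ^ (1 / 2 : ℝ)) ^ (2 : ℝ) := by
    intro q hq
    have hq0 := cone_pos hq
    have h1 : (G2 (fun y => f y + g y) q) ^ (1 / 2 : ℝ) ≤ (G2 f q) ^ (1 / 2 : ℝ) + (G2 g q) ^ (1 / 2 : ℝ) := by
      unfold G2
      rw [Gz_eq, Gz_eq, Gz_eq, Gy_eq, Gy_eq, Gy_eq, GG_add adm_kz hf hg hq0, GG_add adm_ky hf hg hq0]
      refine le_trans ?_ (mink2 _ _ _ _)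
      gcongr
      · exact enorm_add_le _ _
      · exact enorm_add_le _ _
    have h2 := ENNReal.rpow_le_rpow h1 (by norm_num : (0 : ℝ) ≤ 2)
    rw [← ENNReal.rpow_mul] at h2
    norm_num at h2
    simpa using h2
  have e : ∀ h : ℝ → ℂ, ∀ q, ((G2 h q) ^ (1 / 2 : ℝ)) ^ (2 : ℝ) = G2 h q := by
    intro h q
    rw [← ENNReal.rpow_mul]
    norm_num
  have h3 := ENNReal.lintegral_Lp_add_le (μ := (volume : Measure (ℝ × ℝ)).restrict (cone 1 x))
    (f := fun q => (G2 f q) ^ (1 / 2 : ℝ)) (g := fun q => (G2 g q) ^ (1 / 2 : ℝ)) (p := 2)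
    ((G2_meas hf).pow_const _).aemeasurable ((G2_meas hg).pow_const _).aemeasurable (by norm_num)
  simp only [Pi.add_apply, e] at h3
  unfold SF SG
  refine le_trans ?_ h3
  apply ENNReal.rpow_le_rpow _ (by norm_num)
  apply setLIntegral_mono' (cone_meas x)
  exact hpt

theorem SF_zero (x : ℝ) : SF (fun _ => 0) x = 0 := by
  unfold SF SG
  have h : ∀ q, G2 (fun _ => 0) q = 0 := by
    intro q
    unfold G2 Gz Gy
    simp
  simp only [h, lintegral_zero]
  exact ENNReal.zero_rpow_of_pos (by norm_num)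

theorem SF_sum {b : ℕ → ℝ → ℂ} (hb : ∀ j, Integrable (b j)) (x : ℝ) (n : ℕ) :
    SF (fun y => ∑ j ∈ Finset.range n, b j y) x ≤ ∑ j ∈ Finset.range n, SF (b j) x := by
  induction n with
  | zero =>
    simp only [Finset.range_zero, Finset.sum_empty]
    rw [SF_zero]
  | succ n ih =>
    simp only [Finset.sum_range_succ]
    have h1 : Integrable fun y => ∑ j ∈ Finset.range n, b j y := integrable_finsetSum _ fun j _ => hb j
    exact (SF_add h1 (hb n) x).trans (add_le_add ih le_rfl)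

theorem SF_tsum {b : ℕ → ℝ → ℂ} (hb : ∀ j, Integrable (b j)) (hs : (∑' j, ∫⁻ y, ‖b j y‖ₑ) < ⊤) (x : ℝ) :
    SF (fun y => ∑' j, b j y) x ≤ ∑' j, SF (b j) x := by
  set B : ℕ → ℝ → ℂ := fun n y => ∑ j ∈ Finset.range n, b j y with hB
  have hBi : ∀ n, Integrable (B n) := fun n => integrable_finsetSum _ fun j _ => hb j
  have hle : ∀ n, ∫⁻ q in cone 1 x, G2 (B n) q ≤ (∑' j, SF (b j) x) ^ (2 : ℝ) := by
    intro n
    have h1 : SF (B n) x ≤ ∑' j, SF (b j) x := (SF_sum hb x n).trans (ENNReal.sum_le_tsum _)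
    have h2 := ENNReal.rpow_le_rpow h1 (by norm_num : (0 : ℝ) ≤ 2)
    unfold SF SG at h2
    rw [← ENNReal.rpow_mul] at h2
    norm_num at h2
    unfold SF SG
    simpa using h2
  have hpt : ∀ q ∈ cone 1 x, G2 (fun y => ∑' j, b j y) q ≤ liminf (fun n => G2 (B n) q) atTop := by
    intro q hq
    have hq0 := cone_pos hq
    have h1 : Tendsto (fun n => G2 (B n) q) atTop (𝓝 (G2 (fun y => ∑' j, b j y) q)) := by
      have hz := (GG_hasSum adm_kz hb hs hq0).tendsto_sum_nat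
      have hy := (GG_hasSum adm_ky hb hs hq0).tendsto_sum_nat
      simp only [← GG_sum adm_kz hb hq0] at hz
      simp only [← GG_sum adm_ky hb hq0] at hy
      unfold G2
      rw [Gz_eq, Gy_eq]
      exact (((ENNReal.continuous_pow 2).tendsto _).comp hz.enorm).add
        (((ENNReal.continuous_pow 2).tendsto _).comp hy.enorm)
    rw [h1.liminf_eq]
  have h5 : ∫⁻ q in cone 1 x, G2 (fun y => ∑' j, b j y) q ≤ (∑' j, SF (b j) x) ^ (2 : ℝ) := by
    calc ∫⁻ q in cone 1 x, G2 (fun y => ∑' j, b j y) q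
        ≤ ∫⁻ q in cone 1 x, liminf (fun n => G2 (B n) q) atTop := setLIntegral_mono' (cone_meas x) hpt
      _ ≤ liminf (fun n => ∫⁻ q in cone 1 x, G2 (B n) q) atTop :=
          lintegral_liminf_le fun n => G2_meas (hBi n)
      _ ≤ (∑' j, SF (b j) x) ^ (2 : ℝ) := by
          refine liminf_le_of_le (by isBoundedDefault) fun c hc => ?_
          obtain ⟨n, hn⟩ := hc.exists
          exact hn.trans (hle n)
  have h6 := ENNReal.rpow_le_rpow h5 (by norm_num : (0 : ℝ) ≤ 1 / 2)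
  rw [← ENNReal.rpow_mul] at h6
  norm_num at h6
  unfold SF SG
  unfold SF SG at h6
  simpa using h6

theorem main : S_sub :=
  ⟨fun _ hf => SF_meas hf, fun _ _ hf hg x => SF_add hf hg x, fun _ hb hs x => SF_tsum hb hs x⟩

end Pool.Agent.U492.GL
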